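import Mathlib
import Pool.Agent.Helper95.FL.StmtsG

set_option autoImplicit false

/-!
# Project XT, piece G-4II
-/

namespace Pool.Agent.Helper55.FL

open Pool.Agent.Helper95.FL Pool.Agent.Helper95.FL.FD

lemma sum3 {M : Type} [AddCommMonoid M] {a b l : Fin 3} (hab : a ≠ b) (hal : a ≠ l) (hbl : b ≠ l)
    (f : Fin 3 → M) : ∑ x, f x = f a + f b + f l := by
  have h : (Finset.univ : Finset (Fin 3)) = {a, b, l} := by
    revert a b l; decide
  rw [h, Finset.sum_insert (by simp [hab, hal]), Finset.sum_insert (by simp [hbl]),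
    Finset.sum_singleton, add_assoc]

/-- Entry of a triple product. -/
lemma tri {K : Type} [Field K] {a b l : Fin 3} (hab : a ≠ b) (hal : a ≠ l) (hbl : b ≠ l)
    (B A E : Mat3 K) (i j : Fin 3) :
    (B * A * E) i j = (B i a * A a a + B i b * A b a + B i l * A l a) * E a j
      + (B i a * A a b + B i b * A b b + B i l * A l b) * E b j
      + (B i a * A a l + B i b * A b l + B i l * A l l) * E l j := by
  rw [Matrix.mul_apply, sum3 hab hal hbl]
  simp only [Matrix.mul_apply, sum3 hab hal hbl]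

section

variable {K : Type} [Field K] {m : ℕ} (F : FD K m)

lemma A_diag (ε : Fin 3 → Bool) (i : Fin 3) : F.A ε i i = 1 := by simp [FD.A]

lemma A_ne (ε : Fin 3 → Bool) {i j t : Fin 3} (hij : i ≠ j) (hi : i ≠ t) (hj : j ≠ t) :
    F.A ε i j = if ε t then F.τ F.θ else F.θ := by
  have h3 := third_eq hij hi hj
  simp [FD.A, hij, h3]

end

theorem stL4II (hZ : StZ) (hT : StT) : StL4II := by
  intro K _ m F a b l hab hal hbl x hx y hy x' hx' y' hy' hxy
  obtain ⟨C, hC1, hC2, -⟩ := hx
  obtain ⟨D, hD1, hD2, -⟩ := hy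
  obtain ⟨B, hB1, hB2, hB3⟩ := hx'
  obtain ⟨E, hE1, hE2, hE3⟩ := hy'
  have key : ∀ ε, mat x ε + mat y ε + mat x ε * F.A ε * mat y ε
      = mat x' ε + mat y' ε + mat x' ε * F.A ε * mat y' ε := by
    intro ε
    rw [← mat_mul, ← mat_mul, hxy]
  -- entry (b, l)
  have hbl' : ∀ ε, mat x' ε b l + (mat x' ε b b * F.A ε b a + mat x' ε b l * F.A ε l a) * mat y' ε a l
      + (mat x' ε b b * F.A ε b l + mat x' ε b l * F.A ε l l) * mat y' ε l l = 0 := by
    intro ε
    have h := congrFun (congrFun (key ε) b) l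
    simp only [Matrix.add_apply, tri hab hal hbl] at h
    have c1 : ∀ i, mat x ε b i = 0 := by
      intro i; rw [hC2]; by_cases h2 : ε b = true
      · simp [h2, tm, (hC1 i).2]
      · simp [h2, (hC1 i).2]
    have d1 : ∀ i, mat y ε i l = 0 := by
      intro i; rw [hD2]; by_cases h2 : ε l = true
      · simp [h2, tm, (hD1 i).1]
      · simp [h2, (hD1 i).1]
    have b1 : ∀ i, mat x' ε i a = 0 := by
      intro i; rw [hB2]; by_cases h2 : ε a = true
      · simp [h2, tm, (hB1 i).1]
      · simp [h2, (hB1 i).1]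
    have e1 : ∀ i, mat y' ε b i = 0 := by
      intro i; rw [hE2]; by_cases h2 : ε b = true
      · simp [h2, tm, (hE1 i).2]
      · simp [h2, (hE1 i).2]
    simp only [c1, d1, b1, e1, zero_mul, mul_zero, add_zero, zero_add] at h
    linear_combination -h
  have h0 := hbl' z0
  have h1 := hbl' (fun i => decide (i = l))
  have h2 := hbl' (fun i => decide (i = b))
  rw [hB2, hE2, A_diag, A_ne F z0 hab.symm hbl hal, A_ne F z0 (Ne.symm hal) (Ne.symm hbl) hab,
    A_ne F z0 hbl (Ne.symm hab) (Ne.symm hal)] at h0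
  rw [hB2, hE2, A_diag, A_ne F _ hab.symm hbl hal, A_ne F _ (Ne.symm hal) (Ne.symm hbl) hab,
    A_ne F _ hbl (Ne.symm hab) (Ne.symm hal)] at h1 h2
  simp only [z0, decide_true, if_true, decide_eq_true_eq, hab, hal, hbl, hab.symm,
    hal.symm, hbl.symm, if_false, Bool.false_eq_true, decide_false] at h0 h1 h2
  have hprod : B b b * E a l * (F.τ F.θ - F.θ) = 0 := by linear_combination h1 - h0
  have hτ : F.τ F.θ - F.θ ≠ 0 := sub_ne_zero.2 F.τ_θ
  have hBE : B b b = 0 ∨ E a l = 0 := by
    rcases mul_eq_zero.1 hprod with h | h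
    · exact mul_eq_zero.1 h
    · exact absurd h hτ
  by_cases hBb : B b b = 0
  · exact Or.inl (hZ K m F a l b hal hab (Ne.symm hbl) x' B ⟨hB1, hB2, hB3⟩ hBb)
  · have hE0 : E a l = 0 := hBE.resolve_left hBb
    right
    have hg1 : (B b l + B b b * F.θ) * E l l = - B b l := by
      rw [hE0] at h0; linear_combination h0
    have hg2 : (B b l + B b b * F.θ) * F.τ (E l l) = - B b l := by
      have e3 : F.tm E a l = 0 := by simp [tm, hE0]
      rw [e3] at h2
      have e4 : F.tm E l l = F.τ (E l l) := rfl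
      rw [e4] at h2
      linear_combination h2
    have hne : B b l + B b b * F.θ ≠ 0 := by
      intro h
      rw [h, zero_mul] at hg1
      have : B b l = 0 := neg_eq_zero.1 hg1.symm
      rw [this, zero_add] at h
      rcases mul_eq_zero.1 h with h' | h'
      · exact hBb h'
      · exact F.θ_ne h'
    have hEl : F.τ (E l l) = E l l := mul_left_cancel₀ hne (hg2.trans hg1.symm)
    exact hT K m F b l a hbl hab.symm (Ne.symm hal) y' E ⟨hE1, hE2, hE3⟩ hE0 (Or.inl hEl)

end Pool.Agent.Helper55.FL
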